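import Mathlib
import Pool.Agent.H.MP_997916_al.B

set_option autoImplicit false

namespace Pool.Agent.Results.MP_997916_al.Counter

theorem result : ∃ (G : Type) (_ : Group G) (_ : Finite G) (G₁ G₂ : Subgroup G),
    G₁.normalCore = ⊥ ∧ G₂.normalCore = ⊥ ∧
    (∃ e : ((G ⧸ G₁) →₀ ℤ) ≃ₗ[ℤ] ((G ⧸ G₂) →₀ ℤ),
      ∀ (g : G) (x : (G ⧸ G₁) →₀ ℤ),
        e (Finsupp.mapDomain (fun q => g • q) x) = Finsupp.mapDomain (fun q => g • q) (e x)) ∧
    IsEmpty (G₁ ≃* G₂) :=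
  H.MP_997916_al.final

end Pool.Agent.Results.MP_997916_al.Counter
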